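import Mathlib

set_option autoImplicit false

namespace Pool.Agent.Work.MP_7baebc_gt

open Classical

/-- Abstract ping-pong labelling lemma. `A` acts freely on `X`, `g` is a permutation all of whose
nonzero powers are fixed point free; every `A`-orbit has at most one element which is not `big`, and
every `g`-orbit has at most one element which is not `small`. Then there is a set `E` that meets each
`A`-orbit exactly once and alternates along `g`-orbits. -/
theorem exists_set {A X : Type*} [AddCommGroup A] [AddAction A X] (g : Equiv.Perm X)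
    (small big : X → Prop)
    (h0 : ∀ z, small z → big z → False)
    (h1 : ∀ (z : X) (a : A), a ≠ 0 → ¬ big z → big (a +ᵥ z))
    (h2 : ∀ (z : X) (n : ℤ), n ≠ 0 → ¬ small z → small ((g ^ n) z))
    (h3 : ∀ (z : X) (a : A), a +ᵥ z = z → a = 0)
    (h4 : ∀ (z : X) (n : ℤ), (g ^ n) z = z → n = 0)
    (p q : A) (hp : p ≠ 0) (hq : q ≠ 0) (hpq : p ≠ q) :
    ∃ E : Set X, (∀ z, ∃! a : A, a +ᵥ z ∈ E) ∧ (∀ z, z ∈ E ↔ g z ∉ E) := by
  -- cancellation
  have canc : ∀ (z : X) (a b : A), a +ᵥ z = b +ᵥ z → a = b := by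
    intro z a b h
    have : (a - b) +ᵥ (b +ᵥ z) = b +ᵥ z := by
      rw [← add_vadd, sub_add_cancel]; exact h
    exact sub_eq_zero.mp (h3 _ _ this)
  have gcanc : ∀ (z : X) (m n : ℤ), (g ^ m) z = (g ^ n) z → m = n := by
    intro z m n h
    have : (g ^ (m - n)) ((g ^ n) z) = (g ^ n) z := by
      rw [← Equiv.Perm.mul_apply, ← zpow_add, sub_add_cancel]; exact h
    have := h4 _ _ this
    omega
  -- parent relation
  let U : X → X → Prop := fun z w =>
    (big z ∧ ¬ big w ∧ ∃ a : A, a +ᵥ w = z) ∨ (small z ∧ ¬ small w ∧ ∃ n : ℤ, (g ^ n) w = z)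
  have Ubig : ∀ {z w}, U z w → big z → (¬ big w ∧ ∃ a : A, a +ᵥ w = z) := by
    intro z w h hb
    rcases h with h | h
    · exact h.2
    · exact (h0 z h.1 hb).elim
  have Usmall : ∀ {z w}, U z w → small z → (¬ small w ∧ ∃ n : ℤ, (g ^ n) w = z) := by
    intro z w h hb
    rcases h with h | h
    · exact (h0 z hb h.1).elim
    · exact h.2
  have Uuniq : ∀ {z w w'}, U z w → U z w' → w = w' := by
    intro z w w' h h'
    rcases h with h | h
    · obtain ⟨hb, hw, a, ha⟩ := h
      obtain ⟨hw', a', ha'⟩ := Ubig h' hb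
      have e : (a - a') +ᵥ w = w' := by
        have : (-a') +ᵥ (a +ᵥ w) = (-a') +ᵥ (a' +ᵥ w') := by rw [ha, ha']
        rw [← add_vadd, ← add_vadd, neg_add_cancel, zero_vadd] at this
        rw [← this]; congr 1; abel
      by_cases hz : a - a' = 0
      · rw [hz, zero_vadd] at e; exact e
      · exact (hw' (e ▸ h1 w _ hz hw)).elim
    · obtain ⟨hb, hw, a, ha⟩ := h
      obtain ⟨hw', a', ha'⟩ := Usmall h' hb
      have e : (g ^ (a - a')) w = w' := by
        have : (g ^ (-a')) ((g ^ a) w) = (g ^ (-a')) ((g ^ a') w') := by rw [ha, ha']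
        rw [← Equiv.Perm.mul_apply, ← Equiv.Perm.mul_apply, ← zpow_add, ← zpow_add,
          neg_add_cancel, zpow_zero, Equiv.Perm.one_apply] at this
        rw [← this]; congr 2; ring
      by_cases hz : a - a' = 0
      · rw [hz, zpow_zero] at e; exact e
      · exact (hw' (e ▸ h2 w _ hz hw)).elim
  let Bad : X → Prop := fun z => ∃ f : ℕ → X, f 0 = z ∧ (∀ n, U (f n) (f (n + 1))) ∧
    ∃ N, ∀ n ≥ N, big (f n) → p +ᵥ f (n + 1) = f n
  have BadU : ∀ {z w}, U z w → (Bad z ↔ Bad w) := by
    intro z w h
    constructor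
    · rintro ⟨f, hf0, hf, N, hN⟩
      refine ⟨fun n => f (n + 1), ?_, fun n => hf (n + 1), N, fun n hn hb => hN (n + 1) (by omega) hb⟩
      have := hf 0
      rw [hf0] at this
      exact Uuniq this h
    · rintro ⟨f, hf0, hf, N, hN⟩
      refine ⟨fun n => Nat.casesOn n z f, rfl, ?_, N + 1, ?_⟩
      · intro n
        cases n with
        | zero => simpa [hf0] using h
        | succ n => exact hf n
      · intro n hn hb
        cases n with
        | zero => omega
        | succ n => exact hN n (by omega) hb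
  let a0 : X → A := fun w => if Bad w then q else p
  have a0ne : ∀ w, a0 w ≠ 0 := by
    intro w; simp only [a0]; split_ifs <;> assumption
  let R : X → X → Prop := fun w z => U z w ∧ (big z → a0 w +ᵥ w = z)
  have wf : WellFounded R := by
    rw [wellFounded_iff_isEmpty_descending_chain]
    constructor
    rintro ⟨f, hf⟩
    have hU : ∀ n, U (f n) (f (n + 1)) := fun n => (hf n).1
    have hB : ∀ n, Bad (f n) ↔ Bad (f 0) := by
      intro n
      induction n with
      | zero => exact Iff.rfl
      | succ n ih => exact (BadU (hU n)).symm.trans ih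
    by_cases hb : Bad (f 0)
    · obtain ⟨f', h0', hU', N, hN⟩ := hb
      have hff : ∀ n, f' n = f n := by
        intro n
        induction n with
        | zero => exact h0'
        | succ n ih =>
          have := hU' n
          rw [ih] at this
          exact Uuniq this (hU n)
      have hbig : ∃ n ≥ N, big (f n) := by
        rcases hU N with h | h
        · exact ⟨N, le_rfl, h.1⟩
        · refine ⟨N + 1, by omega, ?_⟩
          rcases hU (N + 1) with h' | h'
          · exact h'.1
          · exact (h.2.1 h'.1).elim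
      obtain ⟨n, hn, hbn⟩ := hbig
      have e1 := hN n hn (by rw [hff]; exact hbn)
      rw [hff, hff] at e1
      have e2 := (hf n).2 hbn
      have hbad : Bad (f (n + 1)) := (hB (n + 1)).mpr ⟨f', h0', hU', N, hN⟩
      have ea : a0 (f (n + 1)) = q := by simp only [a0]; rw [if_pos hbad]
      rw [ea, ← e1] at e2
      exact hpq (canc _ _ _ e2).symm
    · apply hb
      refine ⟨f, rfl, hU, 0, fun n _ hbn => ?_⟩
      have e2 := (hf n).2 hbn
      have hbad : ¬ Bad (f (n + 1)) := fun h => hb ((hB (n + 1)).mp h)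
      have ea : a0 (f (n + 1)) = p := by simp only [a0]; rw [if_neg hbad]
      rwa [ea] at e2
  -- representatives
  let repA : X → X := fun z => Quotient.out (s := AddAction.orbitRel A X) (Quotient.mk _ z)
  have repA_mem : ∀ z, ∃ a : A, a +ᵥ z = repA z := by
    intro z
    have := Quotient.mk_out (s := AddAction.orbitRel A X) z
    exact (AddAction.orbitRel_apply.mp this)
  have repA_eq : ∀ z (a : A), repA (a +ᵥ z) = repA z := by
    intro z a
    have : (Quotient.mk (AddAction.orbitRel A X) (a +ᵥ z)) = Quotient.mk _ z :=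
      Quotient.sound (AddAction.orbitRel_apply.mpr ⟨a, rfl⟩)
    simp only [repA, this]
  let repG : X → X := fun z => Quotient.out (s := Equiv.Perm.SameCycle.setoid g) (Quotient.mk _ z)
  have repG_mem : ∀ z, ∃ n : ℤ, (g ^ n) (repG z) = z := by
    intro z
    have := Quotient.mk_out (s := Equiv.Perm.SameCycle.setoid g) z
    exact this
  have repG_eq : ∀ z, repG (g z) = repG z := by
    intro z
    have : (Quotient.mk (Equiv.Perm.SameCycle.setoid g) (g z)) = Quotient.mk _ z :=
      Quotient.sound (show g.SameCycle (g z) z from ⟨-1, by simp⟩)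
    simp only [repG, this]
  let F : (z : X) → ((w : X) → R w z → Prop) → Prop := fun z rec =>
    (big z ∧ ∃ w, ∃ h : R w z, ¬ rec w h) ∨
    (small z ∧ ∃ w, ∃ h : R w z, ∃ n : ℤ, (g ^ n) w = z ∧ ((rec w h ∧ Even n) ∨ (¬ rec w h ∧ Odd n))) ∨
    (big z ∧ (¬ ∃ w, U z w) ∧ z = repA z) ∨
    (small z ∧ (¬ ∃ w, U z w) ∧ ∃ n : ℤ, Odd n ∧ (g ^ n) (repG z) = z)
  let L : X → Prop := wf.fix F
  have hL : ∀ z, L z ↔ F z (fun w _ => L w) := by
    intro z
    have := wf.fix_eq F z
    exact this ▸ Iff.rfl
  refine ⟨{z | L z}, ?_, ?_⟩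
  · -- A-orbits
    have key : ∀ w, ¬ big w → ∃! a : A, L (a +ᵥ w) := by
      intro w hw
      have hval : ∀ a : A, a ≠ 0 → (L (a +ᵥ w) ↔ (a = a0 w ∧ ¬ L w)) := by
        intro a ha
        have hb : big (a +ᵥ w) := h1 w a ha hw
        have hUw : U (a +ᵥ w) w := Or.inl ⟨hb, hw, a, rfl⟩
        rw [hL]
        constructor
        · rintro (⟨_, w', ⟨hU', hR'⟩, hn⟩ | ⟨hs, _⟩ | ⟨_, hn, _⟩ | ⟨hs, _⟩)
          · have := Uuniq hU' hUw
            subst this
            exact ⟨(canc _ _ _ (hR' hb)).symm, hn⟩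
          · exact (h0 _ hs hb).elim
          · exact (hn ⟨w, hUw⟩).elim
          · exact (h0 _ hs hb).elim
        · rintro ⟨rfl, hn⟩
          exact Or.inl ⟨hb, w, ⟨hUw, fun _ => rfl⟩, hn⟩
      by_cases hLw : L w
      · refine ⟨0, by simpa using hLw, ?_⟩
        intro a ha
        by_contra hne
        exact ((hval a hne).mp ha).2 hLw
      · refine ⟨a0 w, (hval _ (a0ne w)).mpr ⟨rfl, hLw⟩, ?_⟩
        intro a ha
        by_cases hne : a = 0
        · subst hne
          simp only [zero_vadd] at ha
          exact (hLw ha).elim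
        · exact ((hval a hne).mp ha).1
    intro z
    by_cases hex : ∃ a : A, ¬ big (a +ᵥ z)
    · obtain ⟨b, hb⟩ := hex
      obtain ⟨a, ha, hau⟩ := key _ hb
      refine ⟨a + b, by simpa [add_vadd] using ha, ?_⟩
      intro c hc
      have : c - b = a := hau (c - b) (by
        show L ((c - b) +ᵥ b +ᵥ z)
        rw [← add_vadd, sub_add_cancel]; exact hc)
      rw [← this, sub_add_cancel]
    · push Not at hex
      have hnoU : ∀ a : A, ¬ ∃ w, U (a +ᵥ z) w := by
        rintro a ⟨w, hw⟩
        obtain ⟨hw1, b, hb⟩ := Ubig hw (hex a)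
        apply hw1
        have : w = (-b + a) +ᵥ z := by
          rw [add_vadd, ← hb, ← add_vadd, neg_add_cancel, zero_vadd]
        rw [this]; exact hex _
      have hval : ∀ a : A, L (a +ᵥ z) ↔ a +ᵥ z = repA z := by
        intro a
        rw [hL]
        constructor
        · rintro (⟨_, w', ⟨hU', _⟩, _⟩ | ⟨hs, _⟩ | ⟨_, _, h⟩ | ⟨hs, _⟩)
          · exact (hnoU a ⟨w', hU'⟩).elim
          · exact (h0 _ hs (hex a)).elim
          · rw [h, repA_eq]
          · exact (h0 _ hs (hex a)).elim
        · intro h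
          exact Or.inr (Or.inr (Or.inl ⟨hex a, hnoU a, by rw [repA_eq]; exact h⟩))
      obtain ⟨a, ha⟩ := repA_mem z
      refine ⟨a, (hval a).mpr ha, ?_⟩
      intro b hb
      exact canc z b a (((hval b).mp hb).trans ha.symm)
  · -- g-orbits
    intro z
    show L z ↔ ¬ L (g z)
    by_cases hex : ∃ n : ℤ, ¬ small ((g ^ n) z)
    · obtain ⟨n, hn⟩ := hex
      set w := (g ^ n) z with hwdef
      have hval : ∀ m : ℤ, L ((g ^ m) w) ↔ ((L w ∧ Even m) ∨ (¬ L w ∧ Odd m)) := by
        intro m
        by_cases hm : m = 0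
        · subst hm; simp
        · have hs : small ((g ^ m) w) := h2 w m hm hn
          have hUw : U ((g ^ m) w) w := Or.inr ⟨hs, hn, m, rfl⟩
          rw [hL]
          constructor
          · rintro (⟨hb, _⟩ | ⟨_, w', ⟨hU', hR'⟩, k, hk, hh⟩ | ⟨hb, _⟩ | ⟨_, hno, _⟩)
            · exact (h0 _ hs hb).elim
            · have := Uuniq hU' hUw
              subst this
              have := gcanc _ _ _ hk
              subst this
              exact hh
            · exact (h0 _ hs hb).elim
            · exact (hno ⟨w, hUw⟩).elim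
          · intro h
            exact Or.inr (Or.inl ⟨hs, w, ⟨hUw, fun hb => (h0 _ hs hb).elim⟩, m, rfl, h⟩)
      have e1 : z = (g ^ (-n)) w := by
        rw [hwdef, ← Equiv.Perm.mul_apply, ← zpow_add, neg_add_cancel]; simp
      have e2 : g z = (g ^ (-n + 1)) w := by
        rw [hwdef, ← Equiv.Perm.mul_apply, ← zpow_add]
        have : -n + 1 + n = 1 := by ring
        rw [this, zpow_one]
      rw [e2, hval]
      conv_lhs => rw [e1, hval]
      have : Even (-n + 1) ↔ ¬ Even (-n) := by rw [Int.even_add_one]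
      have h' : Odd (-n + 1) ↔ Even (-n) := by
        rw [← Int.not_even_iff_odd, this, not_not]
      have h'' : Odd (-n) ↔ ¬ Even (-n) := by rw [← Int.not_even_iff_odd]
      rw [this, h', h'']
      tauto
    · push Not at hex
      have hnoU : ∀ n : ℤ, ¬ ∃ w, U ((g ^ n) z) w := by
        rintro a ⟨w, hw⟩
        obtain ⟨hw1, b, hb⟩ := Usmall hw (hex a)
        apply hw1
        have : w = (g ^ (-b + a)) z := by
          rw [zpow_add, Equiv.Perm.mul_apply, ← hb, ← Equiv.Perm.mul_apply, ← zpow_add,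
            neg_add_cancel]; simp
        rw [this]; exact hex _
      have hval : ∀ y, small y → (¬ ∃ w, U y w) → ∀ n : ℤ, (g ^ n) (repG y) = y → (L y ↔ Odd n) := by
        intro y hs hno n hn
        rw [hL]
        constructor
        · rintro (⟨hb, _⟩ | ⟨_, w', ⟨hU', hR'⟩, _⟩ | ⟨hb, _⟩ | ⟨_, _, k, hk, hk'⟩)
          · exact (h0 _ hs hb).elim
          · exact (hno ⟨w', hU'⟩).elim
          · exact (h0 _ hs hb).elim
          · have := gcanc _ _ _ (hk'.trans hn.symm)
            subst this; exact hk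
        · intro h
          exact Or.inr (Or.inr (Or.inr ⟨hs, hno, n, h, hn⟩))
      obtain ⟨n, hn⟩ := repG_mem z
      have hz := hval z (by simpa using hex 0) (by simpa using hnoU 0) n hn
      have hgz := hval (g z) (by simpa using hex 1) (by simpa using hnoU 1) (n + 1) (by
        rw [repG_eq, add_comm, zpow_add, zpow_one, Equiv.Perm.mul_apply, hn])
      have h5 : Odd (n + 1) ↔ ¬ Odd n := by
        rw [← Int.not_even_iff_odd, Int.even_add_one, not_not, Int.not_odd_iff_even]
      rw [hz, hgz, h5, not_not]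

end Pool.Agent.Work.MP_7baebc_gt
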