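import Mathlib

set_option autoImplicit false

namespace Pool.Agent.Work.MP_7baebc_gt

open Cardinal
open scoped IntermediateField.algebraAdjoinAdjoin

/-- There is a subfield `F` of the reals of cardinality continuum and a real number `x0`
transcendental over `F`. -/
theorem exists_field : ∃ (F : IntermediateField ℚ ℝ) (x0 : ℝ), Transcendental F x0 ∧ #F = #ℝ := by
  obtain ⟨s, hs⟩ := exists_isTranscendenceBasis ℚ ℝ
  have hcR : #ℝ = 𝔠 := Cardinal.mk_real
  have hne : Nonempty s := by
    by_contra hemp
    rw [not_nonempty_iff] at hemp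
    have halg : Algebra.IsAlgebraic ℚ ℝ := hs.isEmpty_iff_isAlgebraic.mp hemp
    have := Algebra.IsAlgebraic.cardinalMk_le_max ℚ ℝ
    rw [hcR] at this
    simp only [Cardinal.mkRat, max_self] at this
    exact absurd this (not_le.mpr Cardinal.aleph0_lt_continuum)
  have hcard : #s = 𝔠 := by
    have h := hs.lift_cardinalMk_eq_max_lift
    simp only [Cardinal.lift_id, Cardinal.mkRat] at h
    rw [hcR] at h
    rcases le_total (#s) ℵ₀ with h1 | h1
    · rw [max_eq_left h1, max_self] at h
      exact absurd h (ne_of_gt Cardinal.aleph0_lt_continuum)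
    · rw [max_eq_right h1, max_eq_left h1] at h
      exact h.symm
  obtain ⟨i0⟩ := hne
  let t : Set s := {i0}ᶜ
  have htr0 : Transcendental (Algebra.adjoin ℚ ((fun i : s => (i : ℝ)) '' t)) (i0 : ℝ) :=
    hs.1.transcendental_adjoin (s := t) (i := i0) (by simp [t])
  let F : IntermediateField ℚ ℝ := IntermediateField.adjoin ℚ ((fun i : s => (i : ℝ)) '' t)
  refine ⟨F, i0, ?_, ?_⟩
  · intro h
    exact htr0 ((IsFractionRing.isAlgebraic_iff
      (Algebra.adjoin ℚ ((fun i : s => (i : ℝ)) '' t)) F ℝ).mpr h)
  · apply le_antisymm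
    · exact Cardinal.mk_le_of_injective (f := fun x : F => (x : ℝ)) Subtype.val_injective
    · rw [hcR]
      have h1 : #t = 𝔠 := by
        have : #(({i0} : Set s)ᶜ : Set s) = #s := by
          have : Infinite s := by
            rw [Cardinal.infinite_iff, hcard]
            exact Cardinal.aleph0_le_continuum
          exact Cardinal.mk_compl_of_infinite _ (by
            rw [Cardinal.mk_singleton, hcard]
            exact lt_of_lt_of_le Cardinal.one_lt_aleph0 Cardinal.aleph0_le_continuum)
        rw [← hcard]; exact this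
      rw [← h1]
      refine Cardinal.mk_le_of_injective (f := fun x : t => (⟨(x : s), ?_⟩ : F)) ?_
      · exact IntermediateField.subset_adjoin _ _ ⟨x, x.2, rfl⟩
      · intro x y h
        simp only [Subtype.mk.injEq] at h
        exact Subtype.ext (Subtype.ext h)

/-- Valuation-theoretic input: a valuation subring `V` of `ℂ`, a subfield `F` of the reals of
cardinality continuum with `F ⊆ V` and a real number `x0` not in `V`. -/
theorem exists_val : ∃ (F : IntermediateField ℚ ℝ) (x0 : ℝ) (V : ValuationSubring ℂ),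
    (∀ c : F, (((c : ℝ) : ℂ)) ∈ V) ∧ ((x0 : ℂ) ∉ V) ∧ #F = #ℝ := by
  obtain ⟨F, x0, htr, hcard⟩ := exists_field
  refine ⟨F, x0, ?_⟩
  let φ : F →+* ℂ := Complex.ofRealHom.comp (algebraMap F ℝ)
  let S : Subring ℂ := φ.range
  by_contra hcon
  push Not at hcon
  have hmem : (x0 : ℂ) ∈ (integralClosure (Subring.closure (S : Set ℂ)) ℂ).toSubring := by
    rw [← iInf_valuationSubring_superset]
    rw [Subring.mem_iInf]
    rintro ⟨V, hV⟩
    by_contra hx
    exact hcon V (fun c => hV ⟨c, rfl⟩) hx hcard
  rw [Subring.closure_eq] at hmem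
  have hint : IsIntegral S (x0 : ℂ) := hmem
  apply htr
  obtain ⟨p, hp, hpx⟩ := hint
  -- lift p to F
  have hsurj : Function.Surjective φ.rangeRestrict := φ.rangeRestrict_surjective
  obtain ⟨p', hp', hdeg, hmon⟩ := Polynomial.lifts_and_degree_eq_and_monic
    (f := φ.rangeRestrict) (p := p) (by
      rw [Polynomial.lifts_iff_coeff_lifts]
      intro n
      exact hsurj _) hp
  refine ⟨p', hmon.ne_zero, ?_⟩
  have h1 : Polynomial.eval₂ φ (x0 : ℂ) p' = 0 := by
    rw [← hp', Polynomial.eval₂_map] at hpx
    exact hpx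
  have h2 : Complex.ofRealHom (Polynomial.aeval x0 p') = Polynomial.eval₂ φ (x0 : ℂ) p' := by
    rw [Polynomial.aeval_def, Polynomial.hom_eval₂]
    rfl
  rw [h1] at h2
  exact Complex.ofRealHom.injective (by rw [h2, map_zero])

end Pool.Agent.Work.MP_7baebc_gt
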